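import Mathlib
import Pool.Agent.WR2.StmtsC

set_option autoImplicit false

/-! Row BAD of the squad WR2: few integers with small density. -/

namespace Pool.Agent.WR2.H95

open Pool.Agent.WIR Pool.Agent.WR2
open scoped BigOperators ENNReal

theorem isUnit_iff {r : ℕ} (hr : 1 ≤ r) (a : ℕ) : IsUnit ((a : ℕ) : ZMod (3 ^ r)) ↔ ¬ 3 ∣ a := by
  rw [ZMod.isUnit_iff_coprime, Nat.coprime_pow_right_iff (by omega), Nat.coprime_comm]
  exact Nat.Prime.coprime_iff_not_dvd Nat.prime_three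

open Classical in
theorem bad (ava : AvaStmt) (psf : PsfStmt) : BadStmt := by
  intro ε hε
  obtain ⟨c, hc, N0', hN⟩ := psf ε hε
  refine ⟨c, hc, N0' + 1, ?_⟩
  intro r q hr hq
  obtain ⟨N, rfl⟩ : ∃ N, r = N + 1 := ⟨r - 1, by omega⟩
  have h1 := hN N (by omega)
  obtain ⟨ava1, ava2, -, -⟩ := ava
  set F : ZMod (3 ^ (N + 1)) → ℝ := fun z => if IsUnit z ∧ W (N + 1) z < c then 1 else 0 with hF
  obtain ⟨l1, l2⟩ := ava2 (N + 1) F
  obtain ⟨-, l4⟩ := ava1 (N + 1) q _ l1 hq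
  have h3 : (0 : ℝ) < 3 ^ q := by positivity
  have h3' : (0 : ℝ) < 3 ^ (N + 1) := by positivity
  have hsum : ∑ z, F z ≤ ε * 3 ^ (N + 1) := by
    rw [hF, Finset.sum_boole]
    exact h1
  have hcard : ((((Finset.Icc 1 (3 ^ q)).filter
      (fun a => ¬ 3 ∣ a ∧ wr (N + 1) a < c)).card : ℕ) : ℝ) =
      ∑ m ∈ Finset.Icc 1 (3 ^ q), F ((m : ℕ) : ZMod (3 ^ (N + 1))) := by
    rw [← Finset.sum_boole]
    refine Finset.sum_congr rfl (fun m _ => ?_)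
    have hiff := isUnit_iff (show 1 ≤ N + 1 by omega) m
    by_cases h : ¬ 3 ∣ m ∧ wr (N + 1) m < c
    · have h' : IsUnit ((m : ℕ) : ZMod (3 ^ (N + 1))) ∧
          W (N + 1) ((m : ℕ) : ZMod (3 ^ (N + 1))) < c := ⟨hiff.2 h.1, h.2⟩
      rw [if_pos h]
      exact (if_pos h').symm
    · rw [if_neg h]
      exact (if_neg (fun h' => h ⟨hiff.1 h'.1, h'.2⟩)).symm
  rw [hcard]
  have h5 : ∑ m ∈ Finset.Icc 1 (3 ^ q), F ((m : ℕ) : ZMod (3 ^ (N + 1))) =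
      av q (fun m => F ((m : ℕ) : ZMod (3 ^ (N + 1)))) * 3 ^ q := by
    unfold av
    rw [div_mul_cancel₀ _ h3.ne']
  rw [h5, l4, l2]
  apply mul_le_mul_of_nonneg_right _ h3.le
  rw [div_le_iff₀ h3']
  exact hsum

end Pool.Agent.WR2.H95
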